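import Pool.Agent.Work.MP_dcf6a6_c1.Interface

/-!
# MP_dcf6a6, C1: PTC (helper31)
-/

open Polynomial

namespace Pool.C1.helper31

noncomputable section

theorem stmt_PTC (hL : Stmt_LINB) : Stmt_PTC := by
  intro J K B _ _ _ _ _ _ D R _ _ π hker x
  obtain ⟨b₁, b₂, h12⟩ : ∃ b₁ b₂ : B, b₁ ≠ b₂ := by
    have h3 := D.three
    have : Nontrivial B := Fintype.one_lt_card_iff_nontrivial.1 (by omega)
    exact exists_pair_ne B
  set t : B → ℂ := fun b => ∏ j with D.bl j = b, x (π (MvPolynomial.X (Sum.inl j))) ^ D.l j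
    with ht
  have hm : ∀ b, x (π (D.mono K b)) = t b := by
    intro b
    unfold BData.mono
    rw [map_prod, map_prod]
    simp only [map_pow, ht]
  have hrel : ∀ b₀ b₁ b₂ : B, D.det b₁ b₂ • t b₀ + D.det b₂ b₀ • t b₁ + D.det b₀ b₁ • t b₂ = 0 := by
    intro b₀ b₁ b₂
    have h1 : D.rel K b₀ b₁ b₂ ∈ RingHom.ker π := by
      rw [hker]
      exact Ideal.subset_span ⟨b₀, b₁, b₂, rfl⟩
    rw [RingHom.mem_ker] at h1
    have h2 := congrArg x h1
    unfold BData.rel at h2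
    have hC : ∀ z : ℂ, x (π (MvPolynomial.C z)) = z := by
      intro z
      have : (MvPolynomial.C z : MvPolynomial (J ⊕ K) ℂ) = algebraMap ℂ _ z := rfl
      rw [this, AlgHom.commutes, AlgHom.commutes]
      rfl
    rw [map_zero, map_add, map_add, map_add, map_add, map_mul, map_mul, map_mul, map_mul,
      map_mul, map_mul, hC, hC, hC, hm, hm, hm] at h2
    simp only [smul_eq_mul]
    exact h2
  refine ⟨(D.det b₁ b₂)⁻¹ * (D.be b₂ * t b₁ - D.be b₁ * t b₂),
    (D.det b₁ b₂)⁻¹ * (D.al b₁ * t b₂ - D.al b₂ * t b₁), fun b => ?_⟩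
  have h1 := hL D t b₁ b₂ h12 (fun b => hrel b b₁ b₂) b
  simp only [smul_eq_mul] at h1
  exact h1

end

end Pool.C1.helper31
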