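import Pool.Agent.Work.MP_dcf6a6_c1.Interface

/-!
# MP_dcf6a6, C1: SVAR (helper31)
-/

open Polynomial

namespace Pool.C1.helper31

noncomputable section

/-- the polynomial `y X ^ u + c X + x` -/
def zz (u : ℕ) (x y c : ℂ) : ℂ[X] := C y * X ^ u + C c * X + C x

theorem zz_eval (u : ℕ) (x y c r : ℂ) : (zz u x y c).eval r = y * r ^ u + c * r + x := by
  unfold zz
  simp

theorem zz_coeff (u : ℕ) (hu : 2 ≤ u) (x y c : ℂ) : (zz u x y c).coeff 0 = x := by
  rw [coeff_zero_eq_eval_zero, zz_eval, zero_pow (by omega)]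
  ring

theorem zz_deg (u : ℕ) (hu : 2 ≤ u) (x y c : ℂ) (hy : y ≠ 0) :
    (zz u x y c).natDegree = u ∧ (zz u x y c).leadingCoeff = y := by
  have h1 : (C c * X + C x : ℂ[X]).natDegree ≤ 1 := by
    compute_degree
  have h2 : (C y * X ^ u : ℂ[X]).natDegree = u := natDegree_C_mul_X_pow u y hy
  have h3 : zz u x y c = C y * X ^ u + (C c * X + C x) := by
    unfold zz
    ring
  have h4 : (C c * X + C x : ℂ[X]).natDegree < (C y * X ^ u : ℂ[X]).natDegree := by
    rw [h2]
    omega
  rw [h3]
  refine ⟨(natDegree_add_eq_left_of_natDegree_lt h4).trans h2, ?_⟩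
  rw [leadingCoeff_add_of_degree_lt' (degree_lt_degree h4), leadingCoeff_mul_X_pow,
    leadingCoeff_C]

/-- avoid the roots of a polynomial -/
theorem pick (H : ℂ[X]) (hH : H.eval 0 ≠ 0) (u : ℕ) (x y : ℂ) (hx : x ≠ 0) :
    ∃ c, IsCoprime H (zz u x y c) := by
  have hH0 : H ≠ 0 := by
    rintro rfl
    simp at hH
  obtain ⟨c, hc⟩ := Infinite.exists_notMem_finset
    (H.roots.toFinset.image fun r => -(y * r ^ u + x) / r)
  refine ⟨c, ?_⟩
  by_contra this
  rw [Polynomial.isCoprime_iff_aeval_ne_zero_of_isAlgClosed ℂ ℂ] at this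
  push Not at this
  obtain ⟨r, h1, h2⟩ := this
  rw [coe_aeval_eq_eval] at h1 h2
  have hr : r ≠ 0 := by
    rintro rfl
    exact hH h1
  refine hc ?_
  rw [Finset.mem_image]
  refine ⟨r, ?_, ?_⟩
  · rw [Multiset.mem_toFinset, mem_roots hH0]
    exact h1
  · rw [zz_eval] at h2
    field_simp
    linear_combination -h2

theorem stmt_SVAR : Stmt_SVAR := by
  intro K _ _ G u x y hG hu hx hy
  have key : ∀ S : Finset K, ∃ c : K → ℂ, (∀ k ∈ S, IsCoprime G (zz (u k) (x k) (y k) (c k))) ∧
      ∀ k ∈ S, ∀ k' ∈ S, k ≠ k' →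
        IsCoprime (zz (u k) (x k) (y k) (c k)) (zz (u k') (x k') (y k') (c k')) := by
    intro S
    induction S using Finset.induction_on with
    | empty => exact ⟨fun _ => 0, by simp, by simp⟩
    | insert a S ha ih =>
      obtain ⟨c, h1, h2⟩ := ih
      obtain ⟨b, hb⟩ := pick (G * ∏ k ∈ S, zz (u k) (x k) (y k) (c k)) (by
        rw [eval_mul, eval_prod]
        refine mul_ne_zero hG (Finset.prod_ne_zero_iff.2 fun k _ => ?_)
        rw [← coeff_zero_eq_eval_zero, zz_coeff _ (hu k)]
        exact hx k) (u a) (x a) (y a) (hx a)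
      have hb1 := IsCoprime.of_mul_left_left hb
      have hb2 : ∀ k ∈ S, IsCoprime (zz (u k) (x k) (y k) (c k)) (zz (u a) (x a) (y a) b) :=
        fun k hk => (IsCoprime.prod_left_iff.1 (IsCoprime.of_mul_left_right hb)) k hk
      refine ⟨fun k => if k = a then b else c k, fun k hk => ?_, fun k hk k' hk' hkk => ?_⟩
      · rcases Finset.mem_insert.1 hk with rfl | hk
        · simp only [if_true]
          exact hb1
        · have hka : k ≠ a := fun h => ha (h ▸ hk)
          simp only [if_neg hka]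
          exact h1 k hk
      · rcases Finset.mem_insert.1 hk with rfl | hkS <;>
          rcases Finset.mem_insert.1 hk' with rfl | hkS'
        · exact absurd rfl hkk
        · have hka : k' ≠ k := fun h => ha (h ▸ hkS')
          simp only [if_true, if_neg hka]
          exact (hb2 k' hkS').symm
        · have hka : k ≠ k' := fun h => ha (h ▸ hkS)
          simp only [if_true, if_neg hka]
          exact hb2 k hkS
        · have hka : k ≠ a := fun h => ha (h ▸ hkS)
          have hka' : k' ≠ a := fun h => ha (h ▸ hkS')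
          simp only [if_neg hka, if_neg hka']
          exact h2 k hkS k' hkS' hkk
  obtain ⟨c, h1, h2⟩ := key Finset.univ
  refine ⟨fun k => zz (u k) (x k) (y k) (c k), fun k => ?_, fun k k' hkk =>
    h2 k (Finset.mem_univ _) k' (Finset.mem_univ _) hkk⟩
  have h3 := zz_deg (u k) (hu k) (x k) (y k) (c k) (hy k)
  exact ⟨h3.1, h3.2, zz_coeff (u k) (hu k) _ _ _, h1 k (Finset.mem_univ _)⟩

end

end Pool.C1.helper31
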